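import Pool.Agent.Y52.SJ.Stm

/-!
# Project SJ: the mean square of the symplectic form over the contact measure
-/

set_option autoImplicit false

namespace Pool.Agent.Y117.SJ

open Finset Pool.Agent.Y52.SJ

lemma swap4 {m d : ℕ} (f : Fin m → Fin m → Fin d → Fin d → ℝ) :
    ∑ i, ∑ j, ∑ k, ∑ l, f i j k l = ∑ k, ∑ l, ∑ i, ∑ j, f i j k l := by
  calc ∑ i, ∑ j, ∑ k, ∑ l, f i j k l = ∑ i, ∑ k, ∑ j, ∑ l, f i j k l :=
        sum_congr rfl fun i _ => sum_comm
    _ = ∑ k, ∑ i, ∑ j, ∑ l, f i j k l := sum_comm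
    _ = ∑ k, ∑ i, ∑ l, ∑ j, f i j k l :=
        sum_congr rfl fun k _ => sum_congr rfl fun i _ => sum_comm
    _ = ∑ k, ∑ l, ∑ i, ∑ j, f i j k l := sum_congr rfl fun k _ => sum_comm

/-- the frame inequality -/
lemma frame (V : Type) [NormedAddCommGroup V] [InnerProductSpace ℝ V] [FiniteDimensional ℝ V]
    (m : ℕ) (c : Fin m → ℝ) (u : Fin m → V) (hc : ∑ i, c i = 1) (hu : ∀ i, ‖u i‖ = 1) :
    1 ≤ (Module.finrank ℝ V : ℝ) * ∑ i, ∑ j, c i * c j * (inner ℝ (u i) (u j)) ^ 2 := by
  set d := Module.finrank ℝ V with hd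
  let b := stdOrthonormalBasis ℝ V
  have hin : ∀ i j, inner ℝ (u i) (u j) = ∑ k : Fin d, inner ℝ (u i) (b k) * inner ℝ (u j) (b k) := by
    intro i j
    rw [← b.sum_inner_mul_inner (u i) (u j)]
    refine sum_congr rfl fun k _ => ?_
    rw [real_inner_comm (u j) (b k)]
  have h1 : ∑ i, ∑ j, c i * c j * (inner ℝ (u i) (u j)) ^ 2 =
      ∑ k : Fin d, ∑ l : Fin d, (∑ i, c i * (inner ℝ (u i) (b k) * inner ℝ (u i) (b l))) ^ 2 := by
    calc ∑ i, ∑ j, c i * c j * (inner ℝ (u i) (u j)) ^ 2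
        = ∑ i, ∑ j, ∑ k : Fin d, ∑ l : Fin d,
          (c i * (inner ℝ (u i) (b k) * inner ℝ (u i) (b l))) *
            (c j * (inner ℝ (u j) (b k) * inner ℝ (u j) (b l))) := by
          refine sum_congr rfl fun i _ => sum_congr rfl fun j _ => ?_
          rw [hin, sq, Finset.sum_mul_sum, Finset.mul_sum]
          refine sum_congr rfl fun k _ => ?_
          rw [Finset.mul_sum]
          refine sum_congr rfl fun l _ => ?_
          ring
      _ = ∑ k : Fin d, ∑ l : Fin d, ∑ i, ∑ j,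
          (c i * (inner ℝ (u i) (b k) * inner ℝ (u i) (b l))) *
            (c j * (inner ℝ (u j) (b k) * inner ℝ (u j) (b l))) := swap4 _
      _ = _ := by
          refine sum_congr rfl fun k _ => sum_congr rfl fun l _ => ?_
          rw [sq, Finset.sum_mul_sum]
  rw [h1]
  have h2 : ∑ k : Fin d, (∑ i, c i * (inner ℝ (u i) (b k) * inner ℝ (u i) (b k))) ^ 2 ≤
      ∑ k : Fin d, ∑ l : Fin d, (∑ i, c i * (inner ℝ (u i) (b k) * inner ℝ (u i) (b l))) ^ 2 := by
    refine sum_le_sum fun k _ => ?_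
    exact single_le_sum (f := fun l : Fin d =>
      (∑ i, c i * (inner ℝ (u i) (b k) * inner ℝ (u i) (b l))) ^ 2)
      (fun _ _ => sq_nonneg _) (mem_univ k)
  have h3 : ∑ k : Fin d, ∑ i, c i * (inner ℝ (u i) (b k) * inner ℝ (u i) (b k)) = 1 := by
    rw [sum_comm, ← hc]
    refine sum_congr rfl fun i _ => ?_
    rw [← Finset.mul_sum, ← hin i i, real_inner_self_eq_norm_sq, hu i]
    norm_num
  have h4 := sq_sum_le_card_mul_sum_sq (s := (univ : Finset (Fin d)))
    (f := fun k => ∑ i, c i * (inner ℝ (u i) (b k) * inner ℝ (u i) (b k)))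
  rw [h3, card_univ, Fintype.card_fin, one_pow] at h4
  calc (1 : ℝ) ≤ (d : ℝ) * ∑ k : Fin d,
        (∑ i, c i * (inner ℝ (u i) (b k) * inner ℝ (u i) (b k))) ^ 2 := h4
    _ ≤ _ := mul_le_mul_of_nonneg_left h2 (Nat.cast_nonneg d)

/-- **the mean square of the symplectic form** -/
theorem main : S_PAIR := by
  intro V _ _ _ J hJ m c u _ hc hu hX
  have hskew : ∀ x y, inner ℝ (J x) y = -inner ℝ x (J y) := by
    intro x y
    have h1 := hJ.2 (J x) y
    rw [hJ.1, inner_neg_left] at h1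
    exact h1.symm
  let T : V →L[ℝ] V := ∑ i, c i • (innerSL ℝ (u i)).smulRight (u i)
  have hT : ∀ x y, inner ℝ (T x) y = ∑ i, c i * (inner ℝ (u i) x * inner ℝ (u i) y) := by
    intro x y
    simp only [T, ContinuousLinearMap.sum_apply, ContinuousLinearMap.smul_apply,
      ContinuousLinearMap.smulRight_apply, innerSL_apply_apply, sum_inner, inner_smul_left]
    refine sum_congr rfl fun i _ => ?_
    simp
  have hTs : ∀ x y, inner ℝ (T x) y = inner ℝ x (T y) := by
    intro x y
    rw [real_inner_comm x (T y) |>.symm, hT, hT]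
    refine sum_congr rfl fun i _ => by ring
  have hAdm : Adm J (T + J.comp (T.comp J)) := by
    refine ⟨fun x y => ?_, fun x => ?_⟩
    · simp only [ContinuousLinearMap.add_apply, ContinuousLinearMap.comp_apply, inner_add_left,
        inner_add_right]
      rw [hTs, hskew, hTs]
      have h1 := hskew x (T (J y))
      rw [← hTs, ← hTs, hTs (J x) (J y)]
      linarith
    · simp only [ContinuousLinearMap.add_apply, ContinuousLinearMap.comp_apply]
      rw [hJ.1, map_add, hJ.1, map_neg, map_neg]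
      abel
  have h1 := hX _ hAdm
  have h2 : ∀ i, inner ℝ ((T + J.comp (T.comp J)) (u i)) (u i) =
      ∑ j, c j * (inner ℝ (u j) (u i)) ^ 2 - ∑ j, c j * (om J (u i) (u j)) ^ 2 := by
    intro i
    simp only [ContinuousLinearMap.add_apply, ContinuousLinearMap.comp_apply, inner_add_left]
    rw [hT, hskew, hT, sub_eq_add_neg]
    congr 1
    · refine sum_congr rfl fun j _ => by ring
    · congr 1
      refine sum_congr rfl fun j _ => ?_
      unfold om
      rw [real_inner_comm (J (u i)) (u j)]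
      ring
  have h3 : ∑ i, ∑ j, c i * c j * (inner ℝ (u i) (u j)) ^ 2 =
      ∑ i, ∑ j, c i * c j * (om J (u i) (u j)) ^ 2 := by
    have h4 : ∑ i, c i * inner ℝ ((T + J.comp (T.comp J)) (u i)) (u i) =
        ∑ i, ∑ j, c i * c j * (inner ℝ (u i) (u j)) ^ 2 -
          ∑ i, ∑ j, c i * c j * (om J (u i) (u j)) ^ 2 := by
      rw [← sum_sub_distrib]
      refine sum_congr rfl fun i _ => ?_
      rw [h2, mul_sub, Finset.mul_sum, Finset.mul_sum]
      congr 1
      · refine sum_congr rfl fun j _ => ?_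
        rw [real_inner_comm (u i) (u j)]
        ring
      · refine sum_congr rfl fun j _ => by ring
    rw [h1] at h4
    linarith
  rw [← h3]
  exact frame V m c u hc hu

end Pool.Agent.Y117.SJ
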